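import Pool.Agent.H38.AB.Targets

/-!
# Row MOM: moments modulo `g`
-/

set_option autoImplicit false

namespace Pool.Agent.H70.AB

open Pool.Agent.H38.AB
open Pool.Agent.H23.AF (En)

/-- at most `n!` sequences of primes have a given product -/
theorem card_prime_tuples (n P : ℕ) (T : Finset (Fin n → ℕ))
    (hT : ∀ t ∈ T, (∀ i, (t i).Prime) ∧ ∏ i, t i = P) : T.card ≤ n.factorial := by
  classical
  rcases T.eq_empty_or_nonempty with h0 | ⟨t0, ht0⟩
  · simp [h0]
  have key : ∀ t ∈ T, List.Perm (List.ofFn t) P.primeFactorsList := by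
    intro t ht
    obtain ⟨hp, hprod⟩ := hT t ht
    refine Nat.primeFactorsList_unique ?_ ?_
    · rw [List.prod_ofFn]; exact hprod
    · intro p hp'
      rw [List.mem_ofFn] at hp'
      obtain ⟨i, rfl⟩ := hp'
      exact hp i
  have hlen : P.primeFactorsList.length = n := by
    rw [← (key t0 ht0).length_eq, List.length_ofFn]
  have hinj : Set.InjOn (fun t : Fin n → ℕ => List.ofFn t) (T : Set (Fin n → ℕ)) := by
    intro a _ b _ hab
    exact List.ofFn_injective hab
  have h1 : T.card ≤ (P.primeFactorsList.permutations.toFinset).card := by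
    refine Finset.card_le_card_of_injOn (fun t => List.ofFn t) ?_ hinj
    intro t ht
    have := key t ht
    simp only [Finset.mem_coe, List.mem_toFinset, List.mem_permutations]
    exact this
  refine h1.trans ((List.toFinset_card_le _).trans ?_)
  rw [List.length_permutations, hlen]

theorem card_Dy_le (g s : ℕ) : (Dy g s).card ≤ 2 ^ s := by
  unfold Dy
  refine (Finset.card_filter_le _ _).trans ?_
  rw [Nat.card_Ico, pow_succ]
  omega

theorem pf_MOM : T_MOM := by
  classical
  intro g v s n _ f hv hg hf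
  unfold En
  set B := Dy g s with hB
  have hBmem : ∀ p ∈ B, p < 2 ^ (s + 1) ∧ p.Prime ∧ p.Coprime g := by
    intro p hp
    rw [hB, Dy, Finset.mem_filter, Finset.mem_Ico] at hp
    exact ⟨hp.1.2, hp.2.1, hp.2.2⟩
  set Z := (Finset.univ : Finset (ZMod g)ˣ).filter fun z => z ^ v = 1 with hZ
  set S := (((Fintype.piFinset (fun _ : Fin n => B)) ×ˢ
    (Fintype.piFinset (fun _ : Fin n => B))).filter
      (fun t => ∏ i, f (t.1 i) = ∏ i, f (t.2 i))) with hS
  -- coprimality of the products
  have hcop : ∀ t ∈ Fintype.piFinset (fun _ : Fin n => B), (∏ i, t i).Coprime g := by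
    intro t ht
    rw [Fintype.mem_piFinset] at ht
    exact Nat.Coprime.prod_left fun i _ => (hBmem _ (ht i)).2.2
  have hlt : ∀ t ∈ Fintype.piFinset (fun _ : Fin n => B), 1 ≤ n → (∏ i, t i) < g := by
    intro t ht hn
    rw [Fintype.mem_piFinset] at ht
    refine lt_of_lt_of_le ?_ hg
    have h1 : (∏ i : Fin n, t i) < ∏ _i : Fin n, 2 ^ (s + 1) := by
      have : Nonempty (Fin n) := ⟨⟨0, hn⟩⟩
      refine Finset.prod_lt_prod_of_nonempty ?_ ?_ Finset.univ_nonempty
      · intro i _
        exact (hBmem _ (ht i)).2.1.pos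
      · intro i _
        exact (hBmem _ (ht i)).1
    rwa [Finset.prod_const, Finset.card_univ, Fintype.card_fin, ← pow_mul] at h1
  -- the unit of a product
  let U : (Fin n → ℕ) → (ZMod g)ˣ := fun t =>
    if h : (∏ i, t i).Coprime g then ZMod.unitOfCoprime _ h else 1
  have hU : ∀ t ∈ Fintype.piFinset (fun _ : Fin n => B),
      ((U t : (ZMod g)ˣ) : ZMod g) = ((∏ i, t i : ℕ) : ZMod g) := by
    intro t ht
    simp only [U, dif_pos (hcop t ht), ZMod.coe_unitOfCoprime]
  have hprodf : ∀ t ∈ Fintype.piFinset (fun _ : Fin n => B), ∏ i, f (t i) = U t ^ v := by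
    intro t ht
    apply Units.ext
    rw [Units.val_pow_eq_pow_val, hU t ht, Units.coe_prod]
    rw [Fintype.mem_piFinset] at ht
    have : ∀ i, ((f (t i) : (ZMod g)ˣ) : ZMod g) = ((t i : ℕ) : ZMod g) ^ v :=
      fun i => hf _ (hBmem _ (ht i)).2.2
    simp only [this]
    rw [Finset.prod_pow, Nat.cast_prod]
  have hcard : S.card ≤ n.factorial * ((Fintype.piFinset (fun _ : Fin n => B)) ×ˢ Z).card := by
    refine Finset.card_le_mul_card_image_of_maps_to (f := fun t => (t.2, U t.1 * (U t.2)⁻¹))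
      ?_ _ ?_
    · intro t ht
      rw [hS, Finset.mem_filter, Finset.mem_product] at ht
      obtain ⟨⟨h1, h2⟩, h3⟩ := ht
      rw [hprodf _ h1, hprodf _ h2] at h3
      rw [Finset.mem_product]
      refine ⟨h2, ?_⟩
      rw [hZ, Finset.mem_filter]
      refine ⟨Finset.mem_univ _, ?_⟩
      simp only [mul_pow, h3, inv_pow, mul_inv_cancel]
    · rintro ⟨t2, ζ⟩ hb
      rcases (S.filter fun t => (t.2, U t.1 * (U t.2)⁻¹) = (t2, ζ)).eq_empty_or_nonempty with
        h0 | ⟨⟨a, a'⟩, ha⟩
      · rw [h0]; simp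
      rcases Nat.eq_zero_or_pos n with hn | hn
      · subst hn
        rw [Nat.factorial_zero, Finset.card_le_one]
        rintro ⟨x1, x2⟩ _ ⟨y1, y2⟩ _
        exact Prod.ext (Subsingleton.elim _ _) (Subsingleton.elim _ _)
      have ha2 := (Finset.mem_filter.1 ha).2
      have haS := (Finset.mem_filter.1 ha).1
      rw [hS, Finset.mem_filter, Finset.mem_product] at haS
      set F := S.filter fun t => (t.2, U t.1 * (U t.2)⁻¹) = (t2, ζ) with hF
      have hinj : Set.InjOn (fun t : (Fin n → ℕ) × (Fin n → ℕ) => t.1) (F : Set _) := by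
        rintro ⟨x1, x2⟩ hx ⟨y1, y2⟩ hy hxy
        have hx2 := (Finset.mem_filter.1 (Finset.mem_coe.1 hx)).2
        have hy2 := (Finset.mem_filter.1 (Finset.mem_coe.1 hy)).2
        simp only [Prod.mk.injEq] at hx2 hy2 hxy
        exact Prod.ext hxy (hx2.1.trans hy2.1.symm)
      rw [← Finset.card_image_of_injOn hinj]
      refine card_prime_tuples n (∏ i, a i) _ ?_
      intro t ht
      rw [Finset.mem_image] at ht
      obtain ⟨⟨x1, x2⟩, hx, rfl⟩ := ht
      have hx2 := (Finset.mem_filter.1 hx).2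
      have hxS := (Finset.mem_filter.1 hx).1
      rw [hS, Finset.mem_filter, Finset.mem_product] at hxS
      simp only [Prod.mk.injEq] at hx2 ha2
      have hx1 := hxS.1.1
      have ha1 := haS.1.1
      simp only at hx1 ha1
      refine ⟨fun i => (hBmem _ ((Fintype.mem_piFinset.1 hx1) i)).2.1, ?_⟩
      have hUU : U x1 = U a := by
        have e1 : U x1 * (U t2)⁻¹ = ζ := by rw [← hx2.1]; exact hx2.2
        have e2 : U a * (U t2)⁻¹ = ζ := by rw [← ha2.1]; exact ha2.2
        exact mul_right_cancel (e1.trans e2.symm)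
      have h3 : ((∏ i, x1 i : ℕ) : ZMod g) = ((∏ i, a i : ℕ) : ZMod g) := by
        rw [← hU _ hx1, ← hU _ ha1, hUU]
      rw [ZMod.natCast_eq_natCast_iff] at h3
      exact Nat.ModEq.eq_of_lt_of_lt h3 (hlt _ hx1 hn) (hlt _ ha1 hn)
  have hpi : (Fintype.piFinset (fun _ : Fin n => B)).card = B.card ^ n := by
    rw [Fintype.card_piFinset, Finset.prod_const, Finset.card_univ, Fintype.card_fin]
  rw [Finset.card_product, hpi] at hcard
  have hBc : B.card ^ n ≤ (2 ^ s) ^ n := Nat.pow_le_pow_left (card_Dy_le g s) n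
  have h4 : S.card ≤ n.factorial * ((2 ^ s) ^ n * Z.card) :=
    hcard.trans (Nat.mul_le_mul_left _ (Nat.mul_le_mul_right _ hBc))
  have h5 : (S.card : ℝ) ≤ n.factorial * ((2 ^ s) ^ n * Z.card) := by exact_mod_cast h4
  calc (S.card : ℝ) ≤ n.factorial * ((2 ^ s) ^ n * Z.card) := h5
    _ = ((2 : ℝ) ^ s) ^ n * n.factorial * Z.card := by ring

end Pool.Agent.H70.AB
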